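import Pool.Agent.Y157.PC.Stm2
import Pool.Agent.Y157.PS.Tools

/-!
# Project PC, job UNQF: the only valuation ring of `κ F` above a branch point

Proof by helper768.
-/

set_option autoImplicit false
set_option linter.all false

open Polynomial

namespace Pool.Agent.Y768.PC

open Pool.Agent.Y157.PS Pool.Agent.Y157.PC

/-- constants are integral -/
theorem alg_mem {Ω : Type} [Field Ω] [Algebra ℚ Ω] (W : ValuationSubring Ω)
    (hW : ∀ c : ℚ, algebraMap ℚ Ω c ∈ W) {c : Ω} (hc : c ∈ algebraicClosure ℚ Ω) : c ∈ W := by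
  have h1 : IsAlgebraic ℚ c := mem_algebraicClosure_iff.1 hc
  obtain ⟨p, hp, hpc⟩ := h1.isIntegral
  let φ : ℚ →+* W := (algebraMap ℚ Ω).codRestrict W.toSubring hW
  have h2 : IsIntegral W c := by
    refine ⟨p.map φ, hp.map φ, ?_⟩
    rw [Polynomial.eval₂_map]
    exact hpc
  obtain ⟨y, hy⟩ := IsIntegrallyClosed.isIntegral_iff.1 h2
  rw [← hy]
  exact y.2

section

variable {Ω : Type} [Field Ω] [Algebra ℚ Ω] (κ : IntermediateField ℚ Ω) (π : Ω)

/-- valuation rings above the point -/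
def Abv (W : ValuationSubring Ω) : Prop := (∀ c ∈ κ, c ∈ W) ∧ π ∈ W.nonunits

/-- common units -/
def UU (u : Ω) : Prop := ∀ W : ValuationSubring Ω, Abv κ π W → IsU W u

/-- common nonunits -/
def NN (u : Ω) : Prop := ∀ W : ValuationSubring Ω, Abv κ π W → u ∈ W.nonunits

variable {κ π}

lemma UU.mul {u v : Ω} (hu : UU κ π u) (hv : UU κ π v) : UU κ π (u * v) :=
  fun W hW => (hu W hW).mul (hv W hW)

lemma UU.inv {u : Ω} (hu : UU κ π u) : UU κ π u⁻¹ := fun W hW => (hu W hW).inv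

lemma UU.div {u v : Ω} (hu : UU κ π u) (hv : UU κ π v) : UU κ π (u / v) :=
  fun W hW => (hu W hW).div (hv W hW)

lemma UU.one : UU κ π 1 := fun W hW => isU_one

lemma UU.sq {u : Ω} (hu : UU κ π u) : UU κ π (u ^ 2) := by
  rw [pow_two]; exact hu.mul hu

lemma UU.const {c : Ω} (hc : c ∈ κ) (h0 : c ≠ 0) : UU κ π c :=
  fun W hW => ⟨h0, hW.1 c hc, hW.1 _ (inv_mem hc)⟩

lemma UU.add {u t : Ω} (hu : UU κ π u) (ht : NN κ π t) : UU κ π (u + t) := by
  intro W hW
  refine isU_of_not_nonunit (add_mem (hu W hW).2.1 (non_mem (ht W hW))) fun h => ?_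
  refine (hu W hW).not_nonunit ?_
  have := non_sub h (ht W hW)
  rwa [add_sub_cancel_right] at this

lemma UU.prod {ι : Type} (s : Finset ι) (f : ι → Ω) (h : ∀ i ∈ s, UU κ π (f i)) :
    UU κ π (∏ i ∈ s, f i) := by
  classical
  induction s using Finset.induction_on with
  | empty => rw [Finset.prod_empty]; exact UU.one
  | insert i s hi ih =>
    rw [Finset.prod_insert hi]
    exact (h i (Finset.mem_insert_self i s)).mul
      (ih fun j hj => h j (Finset.mem_insert_of_mem hj))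

lemma NN.mul {u t : Ω} (hu : ∀ W : ValuationSubring Ω, Abv κ π W → u ∈ W) (ht : NN κ π t) :
    NN κ π (u * t) := fun W hW => non_mul (hu W hW) (ht W hW)

lemma aeval_mem' (p : κ[X]) (W : ValuationSubring Ω) (hW : Abv κ π W) : aeval π p ∈ W := by
  induction p using Polynomial.induction_on' with
  | add p q hp hq => rw [map_add]; exact add_mem hp hq
  | monomial n a =>
    rw [aeval_monomial]
    exact mul_mem (hW.1 _ a.2) (pow_mem (non_mem hW.2) n)

lemma poly_form (p : κ[X]) (hp : p ≠ 0) : ∃ (n : ℕ) (u : Ω), UU κ π u ∧ aeval π p = π ^ n * u := by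
  obtain ⟨q, hq, hq'⟩ := exists_eq_pow_rootMultiplicity_mul_and_not_dvd p hp 0
  refine ⟨rootMultiplicity 0 p, aeval π q, ?_, ?_⟩
  · rw [C_0, sub_zero, X_dvd_iff] at hq'
    have h1 : aeval π q = ((q.coeff 0 : κ) : Ω) + aeval π (divX q) * π := by
      conv_lhs => rw [← divX_mul_X_add q]
      rw [map_add, map_mul, aeval_X, aeval_C, add_comm]
      rfl
    rw [h1]
    refine UU.add (UU.const (q.coeff 0).2 ?_) (NN.mul (fun W hW => aeval_mem' _ W hW)
      fun W hW => hW.2)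
    intro h
    exact hq' (Subtype.ext h)
  · conv_lhs => rw [hq]
    rw [map_mul, map_pow, map_sub, aeval_X, C_0, map_zero, sub_zero]

lemma L_form (hπ : π ≠ 0) {a : Ω} (ha : a ∈ IntermediateField.adjoin κ {π}) (h0 : a ≠ 0) :
    ∃ (n : ℤ) (u : Ω), UU κ π u ∧ a = π ^ n * u := by
  obtain ⟨r, s, hrs⟩ := (IntermediateField.mem_adjoin_simple_iff κ a).1 ha
  have hr : r ≠ 0 := by
    rintro rfl
    rw [map_zero, zero_div] at hrs
    exact h0 hrs
  have hs : s ≠ 0 := by
    rintro rfl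
    rw [map_zero, div_zero] at hrs
    exact h0 hrs
  obtain ⟨n, u, hu, hn⟩ := poly_form (π := π) r hr
  obtain ⟨m, v, hv, hm⟩ := poly_form (π := π) s hs
  refine ⟨(n : ℤ) - m, u / v, hu.div hv, ?_⟩
  rw [hrs, hn, hm, zpow_sub₀ hπ, zpow_natCast, zpow_natCast, mul_div_mul_comm]

/-- squares of the elements `a + b y` -/
lemma sq_form (hπ : π ≠ 0) {y w : Ω} (hw : UU κ π w) (hy : y ^ 2 = π * w) (hy0 : y ≠ 0)
    {a b : Ω} (ha : a ∈ IntermediateField.adjoin κ {π}) (hb : b ∈ IntermediateField.adjoin κ {π})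
    (h0 : a + b * y ≠ 0) :
    ∃ (n : ℤ) (u : Ω), UU κ π u ∧ (a + b * y) ^ 2 = π ^ n * u := by
  have hyN : NN κ π y := by
    intro W hW
    have h1 : y ^ 2 ∈ W.nonunits := by
      rw [hy, mul_comm]
      exact non_mul (hw W hW).2.1 hW.2
    by_contra h
    have h2 : y ∈ W := by
      rcases W.mem_or_inv_mem y with h2 | h2
      · exact h2
      · have h3 : y = y ^ 2 * y⁻¹ := by field_simp
        rw [h3]
        exact mul_mem (non_mem h1) h2
    have h4 := isU_of_not_nonunit h2 h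
    have h5 := h4.mul h4
    rw [← pow_two] at h5
    exact h5.not_nonunit h1
  have hw0 : w ≠ 0 := by
    rintro rfl
    rw [mul_zero] at hy
    exact hy0 (pow_eq_zero_iff (two_ne_zero)|>.1 hy)
  have zsq : ∀ m : ℤ, π ^ (2 * m) = (π ^ m) ^ 2 := by
    intro m
    rw [two_mul, zpow_add₀ hπ, pow_two]
  by_cases hb0 : b = 0
  · have ha0 : a ≠ 0 := by
      intro ha0
      rw [ha0, hb0, zero_mul, add_zero] at h0
      exact h0 rfl
    obtain ⟨n, u, hu, hn⟩ := L_form hπ ha ha0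
    refine ⟨2 * n, u ^ 2, hu.sq, ?_⟩
    rw [hb0, zero_mul, add_zero, hn, mul_pow, zsq]
  obtain ⟨k, u', hu', hk⟩ := L_form hπ hb hb0
  by_cases ha0 : a = 0
  · refine ⟨2 * k + 1, u' ^ 2 * w, hu'.sq.mul hw, ?_⟩
    rw [ha0, zero_add, hk, mul_pow, mul_pow, hy, zpow_add₀ hπ, zpow_one, zsq]
    ring
  obtain ⟨m, u, hu, hm⟩ := L_form hπ ha ha0
  rcases le_or_gt m k with hmk | hmk
  · obtain ⟨j, hj⟩ := Int.eq_ofNat_of_zero_le (sub_nonneg.2 hmk)
    have hk' : k = m + j := by omega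
    refine ⟨2 * m, (u + π ^ j * u' * y) ^ 2, ?_, ?_⟩
    · refine UU.sq (UU.add hu (NN.mul (fun W hW => ?_) hyN))
      exact mul_mem (pow_mem (non_mem hW.2) j) (hu' W hW).2.1
    · rw [hk, hm, hk', zpow_add₀ hπ, zpow_natCast, zsq]
      ring
  · obtain ⟨j, hj⟩ := Int.eq_ofNat_of_zero_le (show (0 : ℤ) ≤ m - k - 1 by omega)
    have hm' : m = k + 1 + j := by omega
    refine ⟨2 * k + 1, w * (u' + π ^ j * u * w⁻¹ * y) ^ 2, ?_, ?_⟩
    · refine hw.mul (UU.sq (UU.add hu' (NN.mul (fun W hW => ?_) hyN)))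
      exact mul_mem (mul_mem (pow_mem (non_mem hW.2) j) (hu W hW).2.1) (hw W hW).2.2
    · have e : π * π ^ j * u + u' * y = y * (u' + π ^ j * u * w⁻¹ * y) := by
        have e1 : y * (π ^ j * u * w⁻¹ * y) = π ^ j * u * w⁻¹ * y ^ 2 := by ring
        rw [mul_add, e1, hy]
        field_simp
        ring
      have e2 : a + b * y = π ^ k * (π * π ^ j * u + u' * y) := by
        rw [hk, hm, hm', zpow_add₀ hπ, zpow_add₀ hπ, zpow_natCast, zpow_one]
        ring
      rw [e2, e, mul_pow, mul_pow, hy, zpow_add₀ hπ, zpow_one, zsq]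
      ring

lemma zpow_mem_iff (hπ : π ≠ 0) {W : ValuationSubring Ω} (hW : Abv κ π W) (n : ℤ) :
    π ^ n ∈ W ↔ 0 ≤ n := by
  have hm := nonunits_iff.1 hW.2
  constructor
  · intro h
    by_contra hn
    push Not at hn
    obtain ⟨j, hj⟩ := Int.eq_ofNat_of_zero_le (show (0 : ℤ) ≤ -n - 1 by omega)
    have h1 : π⁻¹ = π ^ n * π ^ j := by
      rw [← zpow_natCast, ← zpow_add₀ hπ, ← zpow_neg_one]
      congr 1
      omega
    rcases hm.2 with h2 | h2
    · exact hπ h2
    · exact h2 (by rw [h1]; exact mul_mem h (pow_mem hm.1 j))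
  · intro h
    obtain ⟨j, hj⟩ := Int.eq_ofNat_of_zero_le h
    rw [hj, zpow_natCast]
    exact pow_mem hm.1 j

lemma mem_iff (hπ : π ≠ 0) {W : ValuationSubring Ω} (hW : Abv κ π W) {z u : Ω} {n : ℤ}
    (hu : UU κ π u) (h : z ^ 2 = π ^ n * u) : z ∈ W ↔ 0 ≤ n := by
  rw [← zpow_mem_iff hπ hW n]
  have h1 : z ∈ W ↔ z ^ 2 ∈ W := by
    constructor
    · intro h; exact pow_mem h 2
    · intro h
      rcases W.mem_or_inv_mem z with h2 | h2
      · exact h2
      · by_cases hz : z = 0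
        · rw [hz]; exact zero_mem _
        · have h3 : z = z ^ 2 * z⁻¹ := by field_simp
          rw [h3]
          exact mul_mem h h2
  rw [h1, h]
  constructor
  · intro h2
    have h3 := mul_mem h2 (hu W hW).2.2
    rwa [mul_assoc, mul_inv_cancel₀ (hu W hW).1, mul_one] at h3
  · intro h2
    exact mul_mem h2 (hu W hW).2.1

/-- the elements of `L(y)` for `y ^ 2 ∈ L` -/
lemma quad_form (L : IntermediateField κ Ω) {y : Ω} (hy : y ^ 2 ∈ L) {z : Ω}
    (hz : z ∈ IntermediateField.adjoin L {y}) : ∃ a ∈ L, ∃ b ∈ L, z = a + b * y := by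
  have halg : IsIntegral L y := by
    refine ⟨X ^ 2 - C ⟨y ^ 2, hy⟩, monic_X_pow_sub_C _ two_ne_zero, ?_⟩
    rw [eval₂_sub, eval₂_X_pow, eval₂_C]
    exact sub_self _
  have h1 : z ∈ Algebra.adjoin L {y} := by
    have h2 := IntermediateField.adjoin_simple_toSubalgebra_of_isAlgebraic halg.isAlgebraic
    rw [← h2]
    exact hz
  clear hz
  induction h1 using Algebra.adjoin_induction with
  | mem x hx =>
    rw [Set.mem_singleton_iff] at hx
    exact ⟨0, zero_mem _, 1, one_mem _, by rw [hx]; ring⟩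
  | algebraMap r => exact ⟨r, r.2, 0, zero_mem _, by rw [zero_mul, add_zero]; rfl⟩
  | add x x' _ _ h h' =>
    obtain ⟨a, ha, b, hb, rfl⟩ := h
    obtain ⟨a', ha', b', hb', rfl⟩ := h'
    exact ⟨a + a', add_mem ha ha', b + b', add_mem hb hb', by ring⟩
  | mul x x' _ _ h h' =>
    obtain ⟨a, ha, b, hb, rfl⟩ := h
    obtain ⟨a', ha', b', hb', rfl⟩ := h'
    exact ⟨a * a' + b * b' * y ^ 2, add_mem (mul_mem ha ha') (mul_mem (mul_mem hb hb') hy),
      a * b' + b * a', add_mem (mul_mem ha hb') (mul_mem hb ha'), by ring⟩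

end

theorem unqf : S_UNQF := by
  classical
  intro K _ _ e he _ _ d hd F Ω _ _ _ _ _ _ _ _ x y hx hy hgen i W W' hW hWx hW' hWx' z hz
  set κ : IntermediateField ℚ Ω := algebraicClosure ℚ Ω with hκ
  set π : Ω := algebraMap F Ω x - algebraMap ℚ Ω (e i : ℚ) with hπdef
  have hπ : π ≠ 0 := by
    intro h
    rw [hπdef, IsScalarTower.algebraMap_apply ℚ F Ω, ← map_sub, map_eq_zero, sub_eq_zero] at h
    exact hx (h ▸ isAlgebraic_algebraMap _)
  have AW : Abv κ π W := ⟨fun c hc => alg_mem W hW hc, hWx⟩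
  have AW' : Abv κ π W' := ⟨fun c hc => alg_mem W' hW' hc, hWx'⟩
  have hcκ : ∀ c : ℚ, algebraMap ℚ Ω c ∈ κ := fun c => κ.algebraMap_mem c
  set Y : Ω := algebraMap F Ω y with hY
  set w : Ω := (algebraMap ℚ Ω (d : ℚ))⁻¹ *
    ∏ j ∈ Finset.univ.erase i, (algebraMap F Ω x - algebraMap ℚ Ω (e j : ℚ)) with hw
  have hd' : algebraMap ℚ Ω (d : ℚ) ≠ 0 := by
    rw [_root_.map_ne_zero]
    exact_mod_cast hd
  have hYw : Y ^ 2 = π * w := by
    have h1 := congrArg (algebraMap F Ω) hy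
    rw [map_mul, map_pow, map_prod, ← IsScalarTower.algebraMap_apply ℚ F Ω] at h1
    have h2 : ∀ j : K, algebraMap F Ω (x - algebraMap ℚ F (e j : ℚ)) =
        algebraMap F Ω x - algebraMap ℚ Ω (e j : ℚ) := by
      intro j
      rw [map_sub, ← IsScalarTower.algebraMap_apply ℚ F Ω]
    rw [Finset.prod_congr rfl fun j _ => h2 j,
      ← Finset.mul_prod_erase Finset.univ _ (Finset.mem_univ i)] at h1
    rw [hw, mul_left_comm, eq_inv_mul_iff_mul_eq₀ hd']
    exact h1
  have hfac : ∀ j : K, algebraMap F Ω x - algebraMap ℚ Ω (e j : ℚ) =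
      algebraMap ℚ Ω ((e i : ℚ) - (e j : ℚ)) + π := by
    intro j
    rw [hπdef, map_sub]
    ring
  have hwU : UU κ π w := by
    rw [hw]
    refine UU.mul (UU.const (hcκ _) hd').inv (UU.prod _ _ fun j hj => ?_)
    rw [hfac j]
    refine UU.add (UU.const (hcκ _) ?_) fun V hV => hV.2
    rw [_root_.map_ne_zero, sub_ne_zero]
    intro h
    exact (Finset.ne_of_mem_erase hj) (he (by exact_mod_cast h)).symm
  have hw0 : w ≠ 0 := (hwU W AW).1
  have hY0 : Y ≠ 0 := by
    intro h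
    rw [h, zero_pow two_ne_zero] at hYw
    exact mul_ne_zero hπ hw0 hYw.symm
  set L : IntermediateField κ Ω := IntermediateField.adjoin κ {π} with hL
  have hπL : π ∈ L := IntermediateField.mem_adjoin_simple_self κ π
  have hκL : ∀ c ∈ κ, c ∈ L := fun c hc => L.algebraMap_mem (⟨c, hc⟩ : κ)
  have hfacL : ∀ j : K, algebraMap F Ω x - algebraMap ℚ Ω (e j : ℚ) ∈ L := by
    intro j
    rw [hfac j]
    exact add_mem (hκL _ (hcκ _)) hπL
  have hwL : w ∈ L := mul_mem (inv_mem (hκL _ (hcκ _))) (prod_mem fun j _ => hfacL j)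
  have hYL : Y ^ 2 ∈ L := by rw [hYw]; exact mul_mem hπL hwL
  have hz' : z ∈ IntermediateField.adjoin L {Y} := by
    have hLM : ∀ c ∈ L, c ∈ (IntermediateField.adjoin L {Y}).toSubfield := fun c hc =>
      (IntermediateField.adjoin L {Y}).algebraMap_mem (⟨c, hc⟩ : L)
    have h1 : (⊤ : IntermediateField ℚ F).toSubfield ≤
        (IntermediateField.adjoin L {Y}).toSubfield.comap (algebraMap F Ω) := by
      rw [← hgen, IntermediateField.adjoin_toSubfield, Subfield.closure_le]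
      rintro t (⟨c, rfl⟩ | ht)
      · show algebraMap F Ω (algebraMap ℚ F c) ∈ (IntermediateField.adjoin L {Y}).toSubfield
        rw [← IsScalarTower.algebraMap_apply ℚ F Ω]
        exact hLM _ (hκL _ (hcκ c))
      · show algebraMap F Ω t ∈ (IntermediateField.adjoin L {Y}).toSubfield
        rcases ht with rfl | ht
        · have h2 : algebraMap F Ω t = π + algebraMap ℚ Ω (e i : ℚ) := by
            rw [hπdef]; ring
          rw [h2]
          exact hLM _ (add_mem hπL (hκL _ (hcκ _)))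
        · rw [Set.mem_singleton_iff] at ht
          rw [ht]
          exact IntermediateField.mem_adjoin_simple_self L Y
    have h2 : (geomF ℚ F Ω).toSubfield ≤ (IntermediateField.adjoin L {Y}).toSubfield := by
      unfold geomF
      rw [IntermediateField.adjoin_toSubfield, Subfield.closure_le]
      rintro t (⟨f, rfl⟩ | ht)
      · exact h1 (show f ∈ (⊤ : IntermediateField ℚ F).toSubfield from trivial)
      · exact hLM _ (hκL _ ht)
    exact h2 hz
  obtain ⟨a, ha, b, hb, rfl⟩ := quad_form L hYL hz'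
  by_cases h0 : a + b * Y = 0
  · rw [h0]
    exact ⟨fun _ => zero_mem _, fun _ => zero_mem _⟩
  · obtain ⟨n, u, hu, h⟩ := sq_form hπ hwU hYw hY0 ha hb h0
    rw [mem_iff hπ AW hu h, mem_iff hπ AW' hu h]

end Pool.Agent.Y768.PC
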